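/-
ROW SwS. The swirl of a field with vorticity in a torus. PROOF. sw_pd2: `pd 2 (circ v) x = x₀ ∂₂ v₁ - x₁ ∂₂ v₀`, `curl v x 0 = ∂₁ v₂ - ∂₂ v₁`, `curl v x 1 = ∂₂ v₀ - ∂₀ v₂`, and
`x₀ ∂₁ v₂ - x₁ ∂₀ v₂ = 0` (third part of ax_id; see rdr_circ in NS/AxId.lean for the style).
sw_off, `sV`: if `|x 2| > a`: `(sq s x) 2 = x 2`, so `curl v (sq s x) = 0` for all `s` and `sV v x = avk 1 _ x = 0`. If `|x 2| ≤ a`, `|rad x - R| > a`: if `rad x = 0` then `sq s x = x` and again
`sV v x = 0`. If `rad x > 0`: the function `t ↦ circ v (x + t • e 2)` has the derivative `pd 2 (circ v) (x + t • e 2) = - radFlux (curl v) (x + t • e 2) = 0` (the points `x + t e₂` have the same `rad`, so are not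
in `Dt R a`), so it is constant (`is_const_of_deriv_eq_zero`), and for `t = |x 2| + a + 1` it is `rsq * sV v = 0` by the first case (circ_eq). So `circ v x = 0` and `sV v x = 0` (circ_eq, `rsq x > 0`).
`sO`: off the axis om_eq and `curl v x = 0`; on the axis `sq s x = x` and `curl (curl v) x = 0` because `curl v = 0` near `x` (Dt_closed; the derivative of a function vanishing near `x`; see NS/Init.lean).
sw_bd: for `x ∈ Dt R a`, `r = rad x ≥ R - a ≥ R/2`: `|sV v x| ≤ ∫_0^1 |s (curl v (sq s x) 2)| ds`, the integrand is `≤ A'` and it vanishes unless `|s r - R| ≤ a` (`rad (sq s x) = s r` for `s ≥ 0`), an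
interval of length `2 a / r ≤ 4 a / R`. (Bound the integral over `[0,1]` by `A'` times the measure of `{s | |s r - R| ≤ a}`.) `|sO v x| ≤ ‖curl v x‖ / rad x ≤ 2 A' / R` (Loc_sO in NS/Loc.lean).
sw_int: both functions are continuous, bounded by `c 1_{Dt R a}`, `vol ≤ 26 R a²` (see NS/Init.lean for the same argument).
-/
import Pool.Agent.H87.NS.Init
import Pool.Agent.H87.NS.Loc

set_option autoImplicit false

open Set Filter Topology MeasureTheory
open scoped ContDiff

namespace Pool.Agent.H87.NS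

open Pool.Agent.H16

theorem SwS_pd_circ {v : E3 → E3} (hv : ContDiff ℝ ∞ v) (i : Fin 3) (x : E3) :
    pd i (circ v) x = e i 0 * v x 1 + x 0 * fderiv ℝ v x (e i) 1 - e i 1 * v x 0 -
      x 1 * fderiv ℝ v x (e i) 0 := by
  have hc : ∀ j : Fin 3, HasFDerivAt (fun y : E3 => y j) (EuclideanSpace.proj j : E3 →L[ℝ] ℝ) x :=
    fun j => (EuclideanSpace.proj j : E3 →L[ℝ] ℝ).hasFDerivAt
  have hv' : HasFDerivAt v (fderiv ℝ v x) x := (hv.differentiable (by simp)).differentiableAt.hasFDerivAt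
  have hw : ∀ j : Fin 3, HasFDerivAt (fun y => v y j)
      ((EuclideanSpace.proj j : E3 →L[ℝ] ℝ).comp (fderiv ℝ v x)) x :=
    fun j => (EuclideanSpace.proj j : E3 →L[ℝ] ℝ).hasFDerivAt.comp x hv'
  have h : HasFDerivAt (circ v) _ x := ((hc 0).mul (hw 1)).sub ((hc 1).mul (hw 0))
  unfold pd
  rw [h.fderiv]
  change (x 0 * fderiv ℝ v x (e i) 1 + v x 1 * e i 0) - (x 1 * fderiv ℝ v x (e i) 0 + v x 0 * e i 1) = _
  ring

theorem SwS_rad_line (x : E3) (t : ℝ) : rad (x + t • e 2) = rad x := by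
  have e0 : (x + t • e 2 : E3) 0 = x 0 := by
    show x 0 + t * (e 2 : E3) 0 = x 0
    simp [e]
  have e1 : (x + t • e 2 : E3) 1 = x 1 := by
    show x 1 + t * (e 2 : E3) 1 = x 1
    simp [e]
  unfold rad
  rw [e0, e1]

theorem SwS_two_line (x : E3) (t : ℝ) : (x + t • e 2 : E3) 2 = x 2 + t := by
  show x 2 + t * (e 2 : E3) 2 = x 2 + t
  simp [e]

theorem SwS_rad_sq {s : ℝ} (hs : 0 ≤ s) (x : E3) : rad (sq s x) = s * rad x := by
  unfold rad
  rw [Avk_sq0, Avk_sq1]
  have h1 : (s * x 0) ^ 2 + (s * x 1) ^ 2 = s ^ 2 * (x 0 ^ 2 + x 1 ^ 2) := by ring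
  rw [h1, Real.sqrt_mul (sq_nonneg s), Real.sqrt_sq hs]

theorem SwS_axis {x : E3} (hx : rad x = 0) (s : ℝ) : sq s x = x := by
  have hsum : x 0 ^ 2 + x 1 ^ 2 = 0 := by
    have := rad_sq' x
    rw [hx] at this
    unfold rsq at this
    rw [← this]
    norm_num
  have hx0 : x 0 = 0 := by nlinarith [sq_nonneg (x 0), sq_nonneg (x 1)]
  have hx1 : x 1 = 0 := by nlinarith [sq_nonneg (x 0), sq_nonneg (x 1)]
  apply ext3
  · rw [Avk_sq0, hx0, mul_zero]
  · rw [Avk_sq1, hx1, mul_zero]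
  · rw [Avk_sq2]

theorem SwS_avk0 {g : E3 → ℝ} {x : E3} (h : ∀ s, g (sq s x) = 0) (k : ℕ) : avk k g x = 0 := by
  unfold avk
  simp only [h, mul_zero]
  simp

theorem SwS_curl0 {w : E3 → E3} {x : E3} (h1 : w =ᶠ[𝓝 x] fun _ => 0) : curl w x = 0 := by
  have h2 : fderiv ℝ w x = 0 := by
    rw [h1.fderiv_eq]
    simp
  apply ext3
  · show fderiv ℝ w x (e 1) 2 - fderiv ℝ w x (e 2) 1 = 0
    rw [h2]
    simp
  · show fderiv ℝ w x (e 2) 0 - fderiv ℝ w x (e 0) 2 = 0
    rw [h2]
    simp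
  · show fderiv ℝ w x (e 0) 1 - fderiv ℝ w x (e 1) 0 = 0
    rw [h2]
    simp

theorem SwS_high {v : E3 → E3} {R a : ℝ} (hs : ∀ x, x ∉ Dt R a → curl v x = 0) {x : E3} (hx : a < |x 2|) :
    sV v x = 0 := by
  unfold sV
  refine SwS_avk0 (fun s => ?_) 1
  have h1 : sq s x ∉ Dt R a := by
    intro h2
    have h3 := h2.2
    rw [Avk_sq2] at h3
    linarith
  show curl v (sq s x) 2 = 0
  rw [hs _ h1]
  rfl

theorem SwS_line {v : E3 → E3} (hv : AxF v) {x : E3} (h : ∀ t : ℝ, curl v (x + t • e 2) = 0) (t : ℝ) :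
    circ v (x + t • e 2) = circ v x := by
  have hd : ∀ t : ℝ, HasDerivAt (fun t : ℝ => circ v (x + t • e 2)) 0 t := by
    intro t
    have h1 : HasFDerivAt (circ v) (fderiv ℝ (circ v) (x + t • e 2)) (x + t • e 2) :=
      ((VRep_circ_smooth hv.smooth).differentiable (by simp)).differentiableAt.hasFDerivAt
    have h2 : HasDerivAt (fun t : ℝ => x + t • e 2) (e 2) t := by
      simpa using ((hasDerivAt_id' t).smul_const (e 2 : E3)).const_add x
    have h3 := h1.comp_hasDerivAt t h2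
    refine h3.congr_deriv ?_
    have h4 : pd 2 (circ v) (x + t • e 2) = 0 := by
      obtain ⟨R0, R1, R2⟩ := ax_id hv (x + t • e 2)
      have hc := h t
      have c0 : curl v (x + t • e 2) 0 =
        fderiv ℝ v (x + t • e 2) (e 1) 2 - fderiv ℝ v (x + t • e 2) (e 2) 1 := rfl
      have c1 : curl v (x + t • e 2) 1 =
        fderiv ℝ v (x + t • e 2) (e 2) 0 - fderiv ℝ v (x + t • e 2) (e 0) 2 := rfl
      rw [hc] at c0 c1
      have c0' : (0 : ℝ) = fderiv ℝ v (x + t • e 2) (e 1) 2 - fderiv ℝ v (x + t • e 2) (e 2) 1 := c0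
      have c1' : (0 : ℝ) = fderiv ℝ v (x + t • e 2) (e 2) 0 - fderiv ℝ v (x + t • e 2) (e 0) 2 := c1
      rw [SwS_pd_circ hv.smooth]
      simp only [e_apply]
      simp only [Fin.isValue, Fin.reduceEq, if_false]
      linear_combination (x + t • e 2) 0 * c0' + (x + t • e 2) 1 * c1' + R2
    exact h4
  have h5 := is_const_of_deriv_eq_zero (f := fun t : ℝ => circ v (x + t • e 2))
    (fun t => (hd t).differentiableAt) (fun t => (hd t).deriv) t 0
  simpa using h5

theorem sw_pd2 {v : E3 → E3} (hv : AxF v) (x : E3) : pd 2 (circ v) x = - radFlux (curl v) x := by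
  obtain ⟨R0, R1, R2⟩ := ax_id hv x
  have c0 : curl v x 0 = fderiv ℝ v x (e 1) 2 - fderiv ℝ v x (e 2) 1 := rfl
  have c1 : curl v x 1 = fderiv ℝ v x (e 2) 0 - fderiv ℝ v x (e 0) 2 := rfl
  unfold radFlux
  rw [SwS_pd_circ hv.smooth, c0, c1]
  simp only [e_apply]
  simp only [Fin.isValue, Fin.reduceEq, if_false]
  linear_combination R2

theorem sw_off {v : E3 → E3} (hv : AxF v) {R a : ℝ} (ha : 0 < a) (hR : 2 * a ≤ R)
    (hs : ∀ x, x ∉ Dt R a → curl v x = 0) (x : E3) (hx : x ∉ Dt R a) : sV v x = 0 ∧ sO v x = 0 := by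
  have hr0 : 0 ≤ rad x := Real.sqrt_nonneg _
  have hcx := hs x hx
  constructor
  · by_cases h2 : a < |x 2|
    · exact SwS_high hs h2
    · have h2' := not_lt.1 h2
      have hrx : ¬ |rad x - R| ≤ a := fun h => hx ⟨h, h2'⟩
      rcases hr0.lt_or_eq with h | h
      · have hl : ∀ t : ℝ, curl v (x + t • e 2) = 0 := by
          intro t
          refine hs _ fun h3 => hrx ?_
          have := h3.1
          rwa [SwS_rad_line] at this
        have h4 := SwS_line hv hl (|x 2| + a + 1)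
        have h5 : sV v (x + (|x 2| + a + 1) • e 2) = 0 := by
          refine SwS_high hs ?_
          rw [SwS_two_line]
          have h6 := neg_abs_le (x 2)
          rw [lt_abs]
          left
          linarith
        rw [circ_eq hv, h5, mul_zero, circ_eq hv x] at h4
        exact (mul_eq_zero.1 h4.symm).resolve_left (rsq_pos h).ne'
      · unfold sV
        refine SwS_avk0 (fun s => ?_) 1
        rw [SwS_axis h.symm]
        show curl v x 2 = 0
        rw [hcx]
        rfl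
  · rcases hr0.lt_or_eq with h | h
    · have h1 := om_eq hv x
      have h2 : circ (curl v) x = 0 := by
        unfold circ
        rw [hcx]
        simp
      rw [h2] at h1
      exact (mul_eq_zero.1 h1.symm).resolve_left (rsq_pos h).ne'
    · unfold sO
      refine SwS_avk0 (fun s => ?_) 1
      rw [SwS_axis h.symm]
      have h3 : curl v =ᶠ[𝓝 x] fun _ => 0 := by
        filter_upwards [(Dt_closed R a).isOpen_compl.mem_nhds hx] with y hy
        exact hs y hy
      show curl (curl v) x 2 = 0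
      rw [SwS_curl0 h3]
      rfl

theorem SwS_bdV {v : E3 → E3} {R a A' : ℝ} (ha : 0 < a) (hR : 2 * a ≤ R)
    (hs : ∀ x, x ∉ Dt R a → curl v x = 0) (hA : ∀ x, ‖curl v x‖ ≤ A') {x : E3} (hx : x ∈ Dt R a) :
    |sV v x| ≤ 4 * A' * a / R := by
  have hA0 : 0 ≤ A' := (norm_nonneg _).trans (hA 0)
  have hR0 : 0 < R := by linarith
  have hr : R / 2 ≤ rad x := by
    have := (abs_le.1 hx.1).1
    linarith
  have hr0 : 0 < rad x := by linarith
  set r := rad x
  set E : Set ℝ := Icc ((R - a) / r) ((R + a) / r) with hE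
  have hEm : MeasurableSet E := measurableSet_Icc
  have hle : (R - a) / r ≤ (R + a) / r := div_le_div_of_nonneg_right (by linarith) hr0.le
  have hvol : volume.real E = 2 * a / r := by
    rw [hE, Real.volume_real_Icc_of_le hle]
    ring
  have hEfin : volume E ≠ ⊤ := by
    rw [hE, Real.volume_Icc]
    exact ENNReal.ofReal_ne_top
  have hi : Integrable (E.indicator fun _ => A') :=
    (integrable_indicator_iff hEm).2 (integrableOn_const hEfin)
  have hnn : ∀ s, 0 ≤ E.indicator (fun _ => A') s := fun s => indicator_nonneg (fun _ _ => hA0) s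
  have hpt : ∀ s : ℝ, s ∈ Ioc (0 : ℝ) 1 → ‖s ^ 1 * curl v (sq s x) 2‖ ≤ E.indicator (fun _ => A') s := by
    intro s hs1
    by_cases h : sq s x ∈ Dt R a
    · have h1 : s ∈ E := by
        have h2 := h.1
        rw [SwS_rad_sq hs1.1.le, abs_le] at h2
        rw [hE, mem_Icc, div_le_iff₀ hr0, le_div_iff₀ hr0]
        constructor
        · linarith [h2.1]
        · linarith [h2.2]
      rw [indicator_of_mem h1, pow_one, norm_mul, Real.norm_of_nonneg hs1.1.le]
      have h3 : ‖curl v (sq s x) 2‖ ≤ ‖curl v (sq s x)‖ := PiLp.norm_apply_le (curl v (sq s x)) 2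
      have h4 := h3.trans (hA _)
      calc s * ‖curl v (sq s x) 2‖ ≤ 1 * ‖curl v (sq s x) 2‖ :=
            mul_le_mul_of_nonneg_right hs1.2 (norm_nonneg _)
        _ ≤ A' := by rw [one_mul]; exact h4
    · rw [hs _ h]
      have : s ^ 1 * (0 : E3) 2 = 0 := by
        show s ^ 1 * (0 : ℝ) = 0
        ring
      rw [this, norm_zero]
      exact hnn s
  have h1 : ‖∫ s in (0 : ℝ)..1, s ^ 1 * curl v (sq s x) 2‖ ≤ ∫ s in (0 : ℝ)..1, E.indicator (fun _ => A') s :=
    intervalIntegral.norm_integral_le_of_norm_le zero_le_one (Eventually.of_forall hpt)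
      hi.intervalIntegrable
  have h2 : ∫ s in (0 : ℝ)..1, E.indicator (fun _ => A') s ≤ ∫ s, E.indicator (fun _ => A') s := by
    rw [intervalIntegral.integral_of_le zero_le_one]
    exact setIntegral_le_integral hi (Eventually.of_forall hnn)
  have h3 : ∫ s, E.indicator (fun _ => A') s = 2 * a / r * A' := by
    rw [integral_indicator_const A' hEm, hvol, smul_eq_mul]
  have h4 : 2 * a / r * A' ≤ 4 * A' * a / R := by
    rw [div_mul_eq_mul_div, div_le_div_iff₀ hr0 hR0]
    nlinarith [mul_nonneg hA0 ha.le]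
  have h5 : |sV v x| = ‖∫ s in (0 : ℝ)..1, s ^ 1 * curl v (sq s x) 2‖ := rfl
  rw [h5]
  linarith

theorem SwS_int {R a : ℝ} (ha : 0 < a) (hR : a ≤ R) {g : E3 → ℝ} {c : ℝ} (hc : 0 ≤ c) (hg : Continuous g)
    (h1 : ∀ x, |g x| ≤ c) (h2 : ∀ x, x ∉ Dt R a → g x = 0) :
    Integrable g ∧ ∫ x, g x ≤ c * (26 * R * a ^ 2) := by
  have hm : MeasurableSet (Dt R a) := (Dt_closed R a).measurableSet
  have hv := Dt_vol (R := R) ha hR
  have hfin : volume (Dt R a) < ⊤ := hv.trans_lt ENNReal.ofReal_lt_top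
  have hi : Integrable ((Dt R a).indicator fun _ => c) :=
    (integrable_indicator_iff hm).2 (integrableOn_const hfin.ne)
  have hle : ∀ x, |g x| ≤ (Dt R a).indicator (fun _ => c) x := by
    intro x
    by_cases hx : x ∈ Dt R a
    · rw [indicator_of_mem hx]
      exact h1 x
    · rw [indicator_of_notMem hx, h2 x hx, abs_zero]
  have hgi : Integrable g := hi.mono' hg.aestronglyMeasurable (Eventually.of_forall hle)
  refine ⟨hgi, ?_⟩
  have h3 : ∫ x, g x ≤ ∫ x, (Dt R a).indicator (fun _ => c) x :=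
    integral_mono hgi hi fun x => (le_abs_self _).trans (hle x)
  refine h3.trans ?_
  rw [integral_indicator_const c hm, smul_eq_mul, mul_comm]
  refine mul_le_mul_of_nonneg_left ?_ hc
  have h4 := ENNReal.toReal_mono ENNReal.ofReal_ne_top hv
  have hR0 : 0 ≤ R := by linarith
  rw [ENNReal.toReal_ofReal (by positivity)] at h4
  exact h4

theorem sw_bd {v : E3 → E3} (hv : AxF v) {R a A' : ℝ} (ha : 0 < a) (hR : 2 * a ≤ R)
    (hs : ∀ x, x ∉ Dt R a → curl v x = 0) (hA : ∀ x, ‖curl v x‖ ≤ A') (x : E3) :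
    |sV v x| ≤ 4 * A' * a / R ∧ |sO v x| ≤ 2 * A' / R := by
  have hA0 : 0 ≤ A' := (norm_nonneg _).trans (hA 0)
  have hR0 : 0 < R := by linarith
  by_cases hx : x ∈ Dt R a
  · refine ⟨SwS_bdV ha hR hs hA hx, ?_⟩
    have h1 := Loc_sO hv ha (by linarith) hx
    refine h1.trans ?_
    rw [div_mul_eq_mul_div]
    exact div_le_div_of_nonneg_right (mul_le_mul_of_nonneg_left (hA x) (by norm_num)) hR0.le
  · obtain ⟨h1, h2⟩ := sw_off hv ha hR hs x hx
    rw [h1, h2, abs_zero]
    constructor <;> positivity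

theorem sw_int {v : E3 → E3} (hv : AxF v) {R a A' : ℝ} (ha : 0 < a) (hR : 2 * a ≤ R)
    (hs : ∀ x, x ∉ Dt R a → curl v x = 0) (hA : ∀ x, ‖curl v x‖ ≤ A') :
    (Integrable (fun x => |sV v x| ^ (3/2 : ℝ)) ∧ ∫ x, |sV v x| ^ (3/2 : ℝ) ≤ (4 * A' * a / R) ^ (3/2 : ℝ) * (26 * R * a ^ 2)) ∧
    Integrable (sO v) ∧ ∫ x, |sO v x| ≤ 52 * A' * a ^ 2 := by
  have hA0 : 0 ≤ A' := (norm_nonneg _).trans (hA 0)
  have hR0 : 0 < R := by linarith
  have haR : a ≤ R := by linarith
  have hcV : Continuous (sV v) := Init_sV_cont hv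
  have hcO : Continuous (sO v) := Init_sV_cont (curl_axF hv)
  have bV := fun x => (sw_bd hv ha hR hs hA x).1
  have bO := fun x => (sw_bd hv ha hR hs hA x).2
  have zV := fun x hx => (sw_off hv ha hR hs x hx).1
  have zO := fun x hx => (sw_off hv ha hR hs x hx).2
  have hc : 0 ≤ 4 * A' * a / R := by positivity
  have hc' : 0 ≤ 2 * A' / R := by positivity
  have p1 := SwS_int ha haR (g := fun x => |sV v x| ^ (3/2 : ℝ)) (c := (4 * A' * a / R) ^ (3/2 : ℝ))
    (Real.rpow_nonneg hc _) (hcV.abs.rpow_const fun x => Or.inr (by norm_num))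
    (fun x => by
      rw [abs_of_nonneg (Real.rpow_nonneg (abs_nonneg _) _)]
      exact Real.rpow_le_rpow (abs_nonneg _) (bV x) (by norm_num))
    (fun x hx => by
      rw [zV x hx, abs_zero, Real.zero_rpow (by norm_num)])
  have p2 := SwS_int ha haR (g := sO v) (c := 2 * A' / R) hc' hcO bO zO
  have p3 := SwS_int ha haR (g := fun x => |sO v x|) (c := 2 * A' / R) hc' hcO.abs
    (fun x => by
      rw [abs_abs]
      exact bO x)
    (fun x hx => by
      rw [zO x hx, abs_zero])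
  refine ⟨p1, p2.1, p3.2.trans (le_of_eq ?_)⟩
  field_simp
  ring

end Pool.Agent.H87.NS
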