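/-
ROW BSu. The pointwise Biot-Savart bound. PROOF. For `j = 0`: kernel_identity (NS/KId.lean) gives, for every `ε > 0`,
`∫ v y 0 (3 ε² (‖x-y‖² + ε²) ^ (-5/2)) dy = ∫ (curl v y 1 * MK ε 2 (x-y) - curl v y 2 * MK ε 1 (x-y)) dy`, and `|MK ε i z| ≤ 1 / ‖z‖²` for `z ≠ 0`, `|curl v y k| ≤ ‖curl v y‖`, so the absolute value is
`≤ B := 2 ∫ ‖curl v y‖ / ‖x-y‖² dy` (integrable: int_div applied to `fun y => ‖curl v y‖`); kernel_limit (NS/KLim.lean) with `g = fun y => v y 0` gives `c0 |v x 0| ≤ B`.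
For `j = 1, 2` prove the same identities with the indices cyclically permuted
(`∫ v y 1 (...) = ∫ (curl v y 2 * MK ε 0 - curl v y 0 * MK ε 2)`, `∫ v y 2 (...) = ∫ (curl v y 0 * MK ε 1 - curl v y 1 * MK ε 0)`): copy the proof of kernel_identity, which is symmetric in the indices
(or apply the case `j = 0` to the field `P ∘ v ∘ P⁻¹`, `P` the cyclic permutation of the coordinates).
-/
import Pool.Agent.H87.NS.KId
import Pool.Agent.H87.NS.KLim
import Pool.Agent.H87.NS.HInt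
import Pool.Agent.H87.NS.AxId

set_option autoImplicit false

open Set Filter Topology MeasureTheory
open scoped ContDiff

namespace Pool.Agent.H87.NS

open Pool.Agent.H16

theorem BSu_id {v : E3 → E3} (hv : ContDiff ℝ ∞ v)
    (hdiv : ∀ x, ∑ i : Fin 3, fderiv ℝ v x (e i) i = 0) {K : ℝ}
    (hK : ∀ j : Fin 3, DB 1 K (fun x => v x j)) {ε : ℝ} (hε : 0 < ε) (x : E3)
    (a b c : Fin 3) (hsum : ∀ f : Fin 3 → ℝ, ∑ i, f i = f a + f b + f c)
    (hcb : ∀ y, curl v y b = fderiv ℝ v y (e c) a - fderiv ℝ v y (e a) c)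
    (hcc : ∀ y, curl v y c = fderiv ℝ v y (e a) b - fderiv ℝ v y (e b) a) :
    ∫ y, v y a * (3 * ε ^ 2 * (‖x - y‖ ^ 2 + ε ^ 2) ^ (-(5/2) : ℝ))
      = ∫ y, (curl v y b * MK ε c (x - y) - curl v y c * MK ε b (x - y)) := by
  have hpd : ∀ (i j : Fin 3) (y : E3), fderiv ℝ v y (e i) j = pd i (fun z => v z j) y :=
    fun i j y => KId_fderiv hv y (e i) j
  have hvj : ∀ j : Fin 3, ContDiff ℝ ∞ (fun z => v z j) := fun j =>
    (EuclideanSpace.proj j : E3 →L[ℝ] ℝ).contDiff.comp hv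
  have hvj1 : ∀ j : Fin 3, ContDiff ℝ 1 (fun z => v z j) := fun j => (hvj j).of_le (by simp)
  have hM : ∀ i : Fin 3, ContDiff ℝ ∞ (fun z => MK ε i (x - z)) := fun i =>
    (MK_smooth hε i).comp (contDiff_const.sub contDiff_id)
  have hM1 : ∀ i : Fin 3, ContDiff ℝ 1 (fun z => MK ε i (x - z)) := fun i =>
    (hM i).of_le (by simp)
  have hMD : ∀ i : Fin 3, ∃ K, DB 1 K (fun z => MK ε i (x - z)) := by
    intro i
    obtain ⟨K', hK'⟩ := MK_DB hε i
    exact ⟨K', KId_DB (MK_smooth hε i) hK' x⟩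
  choose KM hKM using hMD
  have hMp : ∀ (i k : Fin 3) (y : E3),
      pd k (fun z => MK ε i (x - z)) y = - pd k (MK ε i) (x - y) :=
    fun i k y => KId_pd (MK_smooth hε i) x k y
  -- integrability
  have int1 : ∀ (j i k : Fin 3), Integrable (fun y => v y j * pd k (fun z => MK ε i (x - z)) y) :=
    fun j i k => BL_mul (hvj j).continuous (pd_cont (hM1 i) k) (hK j).1 ((hKM i).2 k)
  have int2 : ∀ (j i k : Fin 3), Integrable (fun y => pd k (fun z => v z j) y * MK ε i (x - y)) :=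
    fun j i k => BL_mul (pd_cont (hvj1 j) k) (hM i).continuous ((hK j).2 k) (hKM i).1
  -- integration by parts
  have hib : ∀ (j i k : Fin 3), ∫ y, v y j * pd k (fun z => MK ε i (x - z)) y =
      - ∫ y, pd k (fun z => v z j) y * MK ε i (x - y) :=
    fun j i k => ibp (hvj1 j) (hM1 i) (hK j) (hKM i) k
  -- the left side
  have hL : ∫ y, v y a * (3 * ε ^ 2 * (‖x - y‖ ^ 2 + ε ^ 2) ^ (-(5/2) : ℝ)) =
      (∫ y, pd a (fun z => v z a) y * MK ε a (x - y)) +
      (∫ y, pd b (fun z => v z a) y * MK ε b (x - y)) +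
      (∫ y, pd c (fun z => v z a) y * MK ε c (x - y)) := by
    have h1 : ∀ y, v y a * (3 * ε ^ 2 * (‖x - y‖ ^ 2 + ε ^ 2) ^ (-(5/2) : ℝ)) =
        -(v y a * pd a (fun z => MK ε a (x - z)) y) +
        -(v y a * pd b (fun z => MK ε b (x - z)) y) +
        -(v y a * pd c (fun z => MK ε c (x - z)) y) := by
      intro y
      rw [← MK_div hε (x - y), hsum, hMp, hMp, hMp]
      ring
    simp_rw [h1]
    have n : ∀ j i k : Fin 3,
        Integrable (fun y => -(v y j * pd k (fun z => MK ε i (x - z)) y)) :=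
      fun j i k => (int1 j i k).neg
    rw [KId_add3 (n a a a) (n a b b) (n a c c), integral_neg, integral_neg, integral_neg,
      hib, hib, hib, neg_neg, neg_neg, neg_neg]
  -- the right side
  have hR : ∫ y, (curl v y b * MK ε c (x - y) - curl v y c * MK ε b (x - y)) =
      (∫ y, pd c (fun z => v z a) y * MK ε c (x - y)) -
      (∫ y, pd a (fun z => v z c) y * MK ε c (x - y)) -
      (∫ y, pd a (fun z => v z b) y * MK ε b (x - y)) +
      (∫ y, pd b (fun z => v z a) y * MK ε b (x - y)) := by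
    have h1 : ∀ y, curl v y b * MK ε c (x - y) - curl v y c * MK ε b (x - y) =
        pd c (fun z => v z a) y * MK ε c (x - y) - pd a (fun z => v z c) y * MK ε c (x - y) -
        pd a (fun z => v z b) y * MK ε b (x - y) + pd b (fun z => v z a) y * MK ε b (x - y) := by
      intro y
      have e1 : curl v y b = pd c (fun z => v z a) y - pd a (fun z => v z c) y := by
        rw [← hpd, ← hpd]; exact hcb y
      have e2 : curl v y c = pd a (fun z => v z b) y - pd b (fun z => v z a) y := by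
        rw [← hpd, ← hpd]; exact hcc y
      rw [e1, e2]
      ring
    simp_rw [h1]
    exact KId_add4 (int2 a c c) (int2 c c a) (int2 b b a) (int2 a b b)
  -- the remaining sum vanishes
  have hs : ∀ i : Fin 3, ∫ y, pd a (fun z => v z i) y * MK ε i (x - y) =
      ∫ y, pd i (fun z => v z i) y * MK ε a (x - y) := by
    intro i
    have h1 := hib i i a
    have h2 := hib i a i
    have h3 : ∫ y, v y i * pd a (fun z => MK ε i (x - z)) y =
        ∫ y, v y i * pd i (fun z => MK ε a (x - z)) y := by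
      refine integral_congr_ae (Filter.Eventually.of_forall fun y => ?_)
      change v y i * pd a (fun z => MK ε i (x - z)) y = v y i * pd i (fun z => MK ε a (x - z)) y
      rw [hMp, hMp, MK_sym hε i a]
    linarith
  have hz : (∫ y, pd a (fun z => v z a) y * MK ε a (x - y)) +
      (∫ y, pd b (fun z => v z b) y * MK ε a (x - y)) +
      (∫ y, pd c (fun z => v z c) y * MK ε a (x - y)) = 0 := by
    rw [← KId_add3 (int2 a a a) (int2 b a b) (int2 c a c)]
    have h1 : ∀ y, pd a (fun z => v z a) y * MK ε a (x - y) +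
        pd b (fun z => v z b) y * MK ε a (x - y) + pd c (fun z => v z c) y * MK ε a (x - y)
        = 0 := by
      intro y
      have h2 := hdiv y
      rw [hsum, hpd, hpd, hpd] at h2
      rw [← add_mul, ← add_mul, h2, zero_mul]
    simp_rw [h1]
    exact integral_zero _ _
  have s1 := hs b
  have s2 := hs c
  rw [hL, hR]
  linarith

theorem BSu_MK {ε : ℝ} (hε : 0 < ε) (i : Fin 3) (z : E3) : |MK ε i z| ≤ 1 / ‖z‖ ^ 2 := by
  have hzi : |z i| ≤ ‖z‖ := by
    have := EuclideanSpace.norm_eq z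
    have h1 := PiLp.norm_apply_le z i
    simpa using h1
  unfold MK
  rcases eq_or_ne z 0 with h0 | h0
  · subst h0
    simp
  · have hz : 0 < ‖z‖ := norm_pos_iff.mpr h0
    rw [abs_mul, abs_of_nonneg (Real.rpow_nonneg (by positivity) _)]
    have h2 : (‖z‖ ^ 2 + ε ^ 2) ^ (-(3/2) : ℝ) ≤ (‖z‖ ^ 2) ^ (-(3/2) : ℝ) :=
      Real.rpow_le_rpow_of_nonpos (by positivity) (by nlinarith [sq_nonneg ε]) (by norm_num)
    have h3 : (‖z‖ ^ 2) ^ (-(3/2) : ℝ) = (‖z‖ ^ 3)⁻¹ := by
      rw [← Real.rpow_natCast ‖z‖ 2, ← Real.rpow_mul hz.le]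
      norm_num
    rw [h3] at h2
    calc |z i| * (‖z‖ ^ 2 + ε ^ 2) ^ (-(3/2) : ℝ) ≤ ‖z‖ * (‖z‖ ^ 3)⁻¹ :=
          mul_le_mul hzi h2 (Real.rpow_nonneg (by positivity) _) hz.le
      _ = 1 / ‖z‖ ^ 2 := by field_simp

theorem BSu_main {v : E3 → E3} (hv : ContDiff ℝ ∞ v)
    (hdiv : ∀ x, ∑ i : Fin 3, fderiv ℝ v x (e i) i = 0) {K : ℝ}
    (hK : ∀ j : Fin 3, DB 1 K (fun x => v x j)) {L : ℝ} (hL : BL L (fun x => ‖curl v x‖)) (x : E3)
    (a b c : Fin 3) (hsum : ∀ f : Fin 3 → ℝ, ∑ i, f i = f a + f b + f c)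
    (hcb : ∀ y, curl v y b = fderiv ℝ v y (e c) a - fderiv ℝ v y (e a) c)
    (hcc : ∀ y, curl v y c = fderiv ℝ v y (e a) b - fderiv ℝ v y (e b) a) :
    c0 * |v x a| ≤ 2 * ∫ y, ‖curl v y‖ / ‖x - y‖ ^ 2 := by
  have hg : Continuous (fun y => v y a) :=
    (EuclideanSpace.proj a : E3 →L[ℝ] ℝ).continuous.comp hv.continuous
  have hi : Integrable (fun y => ‖curl v y‖ / ‖x - y‖ ^ 2) := by
    have h := int_div (f := fun y => ‖curl v y‖) (curl_smooth hv).continuous.norm hL x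
    simpa only [abs_norm] using h
  refine kernel_limit hg (hK a).1.1 x fun ε hε => ?_
  rw [BSu_id hv hdiv hK hε x a b c hsum hcb hcc, ← integral_const_mul]
  have h1 := norm_integral_le_of_norm_le (μ := volume)
    (f := fun y => curl v y b * MK ε c (x - y) - curl v y c * MK ε b (x - y))
    (g := fun y => 2 * (‖curl v y‖ / ‖x - y‖ ^ 2)) (hi.const_mul 2)
    (Filter.Eventually.of_forall fun y => ?_)
  · rw [Real.norm_eq_abs] at h1
    exact h1
  · have hc : ∀ k, |curl v y k| ≤ ‖curl v y‖ := fun k => by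
      simpa using PiLp.norm_apply_le (curl v y) k
    have h2 : ∀ k l, |curl v y k * MK ε l (x - y)| ≤ ‖curl v y‖ / ‖x - y‖ ^ 2 := fun k l => by
      rw [abs_mul, div_eq_mul_one_div]
      exact mul_le_mul (hc k) (BSu_MK hε l (x - y)) (abs_nonneg _) (norm_nonneg _)
    rw [Real.norm_eq_abs]
    calc |curl v y b * MK ε c (x - y) - curl v y c * MK ε b (x - y)|
        ≤ |curl v y b * MK ε c (x - y)| + |curl v y c * MK ε b (x - y)| := abs_sub _ _
      _ ≤ 2 * (‖curl v y‖ / ‖x - y‖ ^ 2) := by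
          have := h2 b c
          have := h2 c b
          linarith

theorem bs_pt {v : E3 → E3} (hv : ContDiff ℝ ∞ v) (hdiv : ∀ x, ∑ i : Fin 3, fderiv ℝ v x (e i) i = 0) {K : ℝ}
    (hK : ∀ j : Fin 3, DB 1 K (fun x => v x j)) {L : ℝ} (hL : BL L (fun x => ‖curl v x‖)) (j : Fin 3) (x : E3) :
    c0 * |v x j| ≤ 2 * ∫ y, ‖curl v y‖ / ‖x - y‖ ^ 2 := by
  fin_cases j
  · exact BSu_main hv hdiv hK hL x 0 1 2 (fun f => Fin.sum_univ_three f) (fun _ => rfl) (fun _ => rfl)
  · exact BSu_main hv hdiv hK hL x 1 2 0 (fun f => by rw [Fin.sum_univ_three]; ring) (fun _ => rfl) (fun _ => rfl)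
  · exact BSu_main hv hdiv hK hL x 2 0 1 (fun f => by rw [Fin.sum_univ_three]; ring) (fun _ => rfl) (fun _ => rfl)

end Pool.Agent.H87.NS
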