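/-
ROW KKc. Composition of kernels. PROOF. Let `I₁ = ∫ (1/‖z‖² on ‖z‖ < 1)`, `I₂ = ∫ (1/‖z‖⁴ on ‖z‖ ≥ 1)` (rad_int in NS/HInt.lean), `d = ‖y - y'‖ > 0`,
`g z = if ‖z‖ < d then (4/d²)/‖z‖² else 1/‖z‖⁴`. For every `x`: `1/(‖x-y‖² ‖x-y'‖²) ≤ g (x - y) + g (x - y')`: by symmetry let `‖x-y‖ ≤ ‖x-y'‖`; then `‖x-y'‖ ≥ d/2`, so
`1/‖x-y'‖² ≤ 4/d²`, and `1/‖x-y'‖² ≤ 1/‖x-y‖²` (if `x = y` the left side is `0` in Lean). Scaling `z = d s` (`Measure.integral_comp_smul` or `lintegral`, dimension 3):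
`∫ g = (4 I₁ + I₂)/d`. So `C = 8 I₁ + 2 I₂ + 1`.
-/
import Pool.Agent.H87.NS.HInt

set_option autoImplicit false

open Set Filter Topology MeasureTheory
open scoped ContDiff

namespace Pool.Agent.H87.NS

open Pool.Agent.H16

/-- The unscaled majorant. -/
noncomputable def kkcG (z : E3) : ℝ :=
  4 * (if ‖z‖ < 1 then 1 / ‖z‖ ^ 2 else 0) + (if ‖z‖ < 1 then 0 else 1 / ‖z‖ ^ 4)

theorem kkcG_nonneg (z : E3) : 0 ≤ kkcG z := by
  unfold kkcG
  split_ifs <;> positivity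

theorem kkcG_int : Integrable kkcG :=
  (rad_int.1.const_mul 4).add rad_int.2

/-- The scaled majorant. -/
noncomputable def kkcg (d : ℝ) (z : E3) : ℝ := (d ^ 4)⁻¹ * kkcG (d⁻¹ • z)

theorem kkcg_nonneg (d : ℝ) (z : E3) : 0 ≤ kkcg d z := by
  unfold kkcg
  have := kkcG_nonneg (d⁻¹ • z)
  positivity

theorem kkcg_int {d : ℝ} (hd : 0 < d) : Integrable (kkcg d) := by
  have h := kkcG_int.comp_smul (R := d⁻¹) (inv_ne_zero hd.ne')
  exact h.const_mul _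

theorem kkcg_val {d : ℝ} (hd : 0 < d) : ∫ z, kkcg d z = (∫ z, kkcG z) / d := by
  unfold kkcg
  rw [integral_const_mul, Measure.integral_comp_smul, hint_finrank, smul_eq_mul]
  have h1 : |((d⁻¹) ^ 3)⁻¹| = d ^ 3 := by
    rw [abs_of_pos (by positivity)]
    field_simp
  rw [h1]
  field_simp

theorem kkcg_eq {d : ℝ} (hd : 0 < d) (z : E3) :
    kkcg d z = if ‖z‖ < d then 4 / (d ^ 2 * ‖z‖ ^ 2) else 1 / ‖z‖ ^ 4 := by
  have h0 : ‖d⁻¹ • z‖ = ‖z‖ / d := by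
    rw [norm_smul, Real.norm_of_nonneg (by positivity)]
    field_simp
  unfold kkcg kkcG
  rw [h0]
  by_cases h : ‖z‖ < d
  · have h1 : ‖z‖ / d < 1 := (div_lt_one hd).2 h
    rw [if_pos h1, if_pos h1, if_pos h]
    by_cases hz : ‖z‖ = 0
    · rw [hz]; simp
    · field_simp
      ring
  · have h1 : ¬ ‖z‖ / d < 1 := fun h' => h ((div_lt_one hd).1 h')
    rw [if_neg h1, if_neg h1, if_neg h]
    have hz : ‖z‖ ≠ 0 := by
      intro hz
      exact h (by rw [hz]; exact hd)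
    field_simp
    ring

theorem kkc_one {a b d : ℝ} (ha : 0 ≤ a) (hd : 0 < d) (hab : a ≤ b) (hsum : d ≤ a + b) :
    1 / (a ^ 2 * b ^ 2) ≤ if a < d then 4 / (d ^ 2 * a ^ 2) else 1 / a ^ 4 := by
  rcases ha.eq_or_lt with h0 | h0
  · subst h0
    simp [hd]
  have hb : 0 < b := h0.trans_le hab
  split_ifs with h
  · rw [div_le_div_iff₀ (by positivity) (by positivity)]
    have h1 : d ^ 2 ≤ 4 * b ^ 2 := by nlinarith
    nlinarith [mul_le_mul_of_nonneg_left h1 (sq_nonneg a)]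
  · rw [div_le_div_iff₀ (by positivity) (by positivity)]
    have h1 : a ^ 2 ≤ b ^ 2 := by nlinarith
    nlinarith [mul_le_mul_of_nonneg_left h1 (sq_nonneg a)]

theorem comp_ker : ∃ C : ℝ, 0 < C ∧ ∀ y y' : E3, y ≠ y' →
    ∫⁻ x, ENNReal.ofReal (1 / (‖x - y‖ ^ 2 * ‖x - y'‖ ^ 2)) ≤ ENNReal.ofReal (C / ‖y - y'‖) := by
  have hM : 0 ≤ ∫ z, kkcG z := integral_nonneg kkcG_nonneg
  refine ⟨2 * (∫ z, kkcG z) + 1, by positivity, ?_⟩
  intro y y' hne
  have hd : 0 < ‖y - y'‖ := norm_pos_iff.2 (sub_ne_zero.2 hne)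
  set d := ‖y - y'‖ with hdd
  have i1 : Integrable (fun x => kkcg d (x - y)) := (kkcg_int hd).comp_sub_right y
  have i2 : Integrable (fun x => kkcg d (x - y')) := (kkcg_int hd).comp_sub_right y'
  have key : ∀ x : E3, 1 / (‖x - y‖ ^ 2 * ‖x - y'‖ ^ 2) ≤ kkcg d (x - y) + kkcg d (x - y') := by
    intro x
    have hs : d ≤ ‖x - y‖ + ‖x - y'‖ := by
      have : y - y' = (x - y') - (x - y) := by abel
      rw [hdd, this]
      have := norm_sub_le (x - y') (x - y)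
      linarith
    rcases le_total ‖x - y‖ ‖x - y'‖ with h | h
    · have h1 := kkc_one (norm_nonneg _) hd h hs
      have h2 := kkcg_nonneg d (x - y')
      rw [kkcg_eq hd (x - y)]
      linarith
    · have h1 := kkc_one (norm_nonneg _) hd h (by linarith)
      have h2 := kkcg_nonneg d (x - y)
      rw [kkcg_eq hd (x - y')]
      have h3 : ‖x - y‖ ^ 2 * ‖x - y'‖ ^ 2 = ‖x - y'‖ ^ 2 * ‖x - y‖ ^ 2 := mul_comm _ _
      rw [h3]
      linarith
  have hval : ∫ x, (kkcg d (x - y) + kkcg d (x - y')) = 2 * (∫ z, kkcG z) / d := by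
    rw [integral_add i1 i2, integral_sub_right_eq_self (fun z => kkcg d z) y,
      integral_sub_right_eq_self (fun z => kkcg d z) y', kkcg_val hd]
    ring
  calc ∫⁻ x, ENNReal.ofReal (1 / (‖x - y‖ ^ 2 * ‖x - y'‖ ^ 2))
      ≤ ∫⁻ x, ENNReal.ofReal (kkcg d (x - y) + kkcg d (x - y')) :=
        lintegral_mono (fun x => ENNReal.ofReal_le_ofReal (key x))
    _ = ENNReal.ofReal (∫ x, (kkcg d (x - y) + kkcg d (x - y'))) :=
        (ofReal_integral_eq_lintegral_ofReal (i1.add i2)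
          (Filter.Eventually.of_forall (fun x => add_nonneg (kkcg_nonneg _ _) (kkcg_nonneg _ _)))).symm
    _ ≤ ENNReal.ofReal ((2 * (∫ z, kkcG z) + 1) / d) := by
        rw [hval]
        apply ENNReal.ofReal_le_ofReal
        gcongr
        linarith

end Pool.Agent.H87.NS
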