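/-
ROW EnB. The energy bounded by the vorticity. PROOF. Let `w y = ‖curl v y‖ ≤ A 1_D(y)`; it is bounded and square integrable (`volume D < ∞`), so bs_pt applies:
`‖v x‖² = ∑_j (v x j)² ≤ 3 (2/c0)² (∫ w y / ‖x-y‖² dy)²`. With lintegrals: `ofReal (‖v x‖²) ≤ ofReal (12/c0²) * (ofReal A * G x)²`, `G x = ∫⁻ y in D, ofReal (1 / ‖x-y‖²)`, and
`G(x)² = ∫⁻ y in D, ∫⁻ y' in D, ofReal (1/‖x-y‖²) ofReal (1/‖x-y'‖²)`. Tonelli (lintegral_lintegral_swap twice):
`∫⁻ x, G(x)² = ∫⁻ y in D, ∫⁻ y' in D, ∫⁻ x, ofReal (1/(‖x-y‖² ‖x-y'‖²)) ≤ ofReal C₁ ∫⁻ y in D, ∫⁻ y' in D, ofReal (1/‖y-y'‖) ≤ ofReal C₁ ofReal B ofReal Vol`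
(comp_ker with constant `C₁` for `y' ≠ y`, i.e. for almost every `y'`). `C = 12 C₁ / c0²`.
-/
import Pool.Agent.H87.NV.BSu
import Pool.Agent.H87.NV.KKc

set_option autoImplicit false

open Set Filter Topology MeasureTheory
open scoped ContDiff

namespace Pool.Agent.H87.NS

open Pool.Agent.H16

private theorem enb_km : Measurable (fun p : E3 × E3 => ENNReal.ofReal (1 / ‖p.1 - p.2‖ ^ 2)) := by
  refine ENNReal.measurable_ofReal.comp ?_
  have h : Measurable (fun p : E3 × E3 => ‖p.1 - p.2‖) := (continuous_fst.sub continuous_snd).norm.measurable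
  exact measurable_const.div (h.pow_const 2)

private theorem enb_sq {C₁ B Vol : ℝ} (hC₁ : 0 < C₁) {D : Set E3} (hD : MeasurableSet D)
    (hV : volume D ≤ ENNReal.ofReal Vol)
    (hB : ∀ x ∈ D, ∫⁻ y in D, ENNReal.ofReal (1 / ‖x - y‖) ≤ ENNReal.ofReal B)
    (hC : ∀ y y' : E3, y ≠ y' →
      ∫⁻ x, ENNReal.ofReal (1 / (‖x - y‖ ^ 2 * ‖x - y'‖ ^ 2)) ≤ ENNReal.ofReal (C₁ / ‖y - y'‖)) :
    ∫⁻ x : E3, (∫⁻ y in D, ENNReal.ofReal (1 / ‖x - y‖ ^ 2)) ^ 2
      ≤ ENNReal.ofReal C₁ * ENNReal.ofReal B * ENNReal.ofReal Vol := by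
  obtain ⟨k, hk⟩ : ∃ k : E3 → E3 → ENNReal, k = fun x y => ENNReal.ofReal (1 / ‖x - y‖ ^ 2) := ⟨_, rfl⟩
  have hkm : Measurable (fun p : E3 × E3 => k p.1 p.2) := by
    rw [hk]
    exact enb_km
  have hk1 : ∀ x, Measurable (k x) := fun x => hkm.comp (measurable_const.prodMk measurable_id)
  have h1 : ∀ x : E3, (∫⁻ y in D, k x y) ^ 2 = ∫⁻ y in D, ∫⁻ y' in D, k x y * k x y' := by
    intro x
    rw [pow_two, ← lintegral_mul_const _ (hk1 x)]
    refine lintegral_congr fun y => ?_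
    rw [← lintegral_const_mul _ (hk1 x)]
  have h3m : Measurable (fun p : E3 × E3 × E3 => k p.1 p.2.1 * k p.1 p.2.2) := by
    have a1 : Measurable (fun p : E3 × E3 × E3 => k p.1 p.2.1) :=
      hkm.comp (measurable_fst.prodMk (measurable_fst.comp measurable_snd))
    have a2 : Measurable (fun p : E3 × E3 × E3 => k p.1 p.2.2) :=
      hkm.comp (measurable_fst.prodMk (measurable_snd.comp measurable_snd))
    exact a1.mul a2
  have h2 : ∫⁻ x : E3, (∫⁻ y in D, k x y) ^ 2 = ∫⁻ y in D, ∫⁻ y' in D, ∫⁻ x : E3, k x y * k x y' := by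
    simp_rw [h1]
    rw [lintegral_lintegral_swap]
    · refine lintegral_congr fun y => ?_
      rw [lintegral_lintegral_swap]
      refine Measurable.aemeasurable ?_
      exact h3m.comp (measurable_fst.prodMk (measurable_const.prodMk measurable_snd))
    · refine Measurable.aemeasurable ?_
      have a3 : Measurable (fun q : (E3 × E3) × E3 => k q.1.1 q.1.2 * k q.1.1 q.2) :=
        h3m.comp ((measurable_fst.comp measurable_fst).prodMk
          ((measurable_snd.comp measurable_fst).prodMk measurable_snd))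
      exact a3.lintegral_prod_right' (ν := volume.restrict D)
  have h4 : ∀ y ∈ D, ∫⁻ y' in D, ∫⁻ x : E3, k x y * k x y' ≤ ENNReal.ofReal C₁ * ENNReal.ofReal B := by
    intro y hy
    have h5 : ∀ᵐ y' ∂(volume.restrict D), ∫⁻ x : E3, k x y * k x y'
        ≤ ENNReal.ofReal C₁ * ENNReal.ofReal (1 / ‖y - y'‖) := by
      have h6 : ∀ᵐ y' ∂(volume.restrict D), y' ∉ ({y} : Set E3) :=
        (Set.countable_singleton y).ae_notMem (volume.restrict D)
      filter_upwards [h6] with y' hy'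
      have hne : y ≠ y' := fun h => hy' (by simp [h])
      have h7 := hC y y' hne
      have h8 : ∀ x : E3, k x y * k x y' = ENNReal.ofReal (1 / (‖x - y‖ ^ 2 * ‖x - y'‖ ^ 2)) := by
        intro x
        rw [hk]
        simp only
        rw [← ENNReal.ofReal_mul (by positivity)]
        congr 1
        rw [div_mul_div_comm, one_mul]
      simp_rw [h8]
      refine h7.trans (le_of_eq ?_)
      rw [← ENNReal.ofReal_mul hC₁.le]
      congr 1
      ring
    refine (lintegral_mono_ae h5).trans ?_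
    have hm : Measurable (fun y' : E3 => ENNReal.ofReal (1 / ‖y - y'‖)) := by
      refine ENNReal.measurable_ofReal.comp ?_
      exact measurable_const.div (continuous_const.sub continuous_id).norm.measurable
    rw [lintegral_const_mul _ hm]
    exact mul_le_mul_right (hB y hy) _
  have h9 : ∫⁻ x : E3, (∫⁻ y in D, k x y) ^ 2 ≤ ENNReal.ofReal C₁ * ENNReal.ofReal B * ENNReal.ofReal Vol := by
    rw [h2]
    refine (setLIntegral_mono' hD h4).trans ?_
    rw [setLIntegral_const]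
    exact mul_le_mul_right hV _
  rw [hk] at h9
  exact h9

theorem en_bd : ∃ C : ℝ, 0 < C ∧ ∀ (v : E3 → E3) (K A B Vol : ℝ) (D : Set E3), ContDiff ℝ ∞ v →
    (∀ x, ∑ i : Fin 3, fderiv ℝ v x (e i) i = 0) → (∀ j : Fin 3, DB 1 K (fun x => v x j)) → MeasurableSet D →
    0 ≤ A → 0 ≤ B → 0 ≤ Vol → volume D ≤ ENNReal.ofReal Vol → (∀ x, ‖curl v x‖ ≤ A) → (∀ x, x ∉ D → curl v x = 0) →
    (∀ x ∈ D, ∫⁻ y in D, ENNReal.ofReal (1 / ‖x - y‖) ≤ ENNReal.ofReal B) →
    ∫ x, ‖v x‖ ^ 2 ≤ C * A ^ 2 * B * Vol := by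
  obtain ⟨C₁, hC₁, hcomp⟩ := comp_ker
  have hc0 := c0_pos
  refine ⟨12 / c0 ^ 2 * C₁, by positivity, ?_⟩
  intro v K A B Vol D hv hdiv hK hD hA hB hVol hV hcA hcD hBD
  have hcs : Continuous (curl v) := (curl_smooth hv).continuous
  have hwc : Continuous (fun x => ‖curl v x‖) := hcs.norm
  -- the curl is bounded and square integrable
  have hVfin : volume D < ⊤ := lt_of_le_of_lt hV ENNReal.ofReal_lt_top
  have hind : Integrable (D.indicator (fun _ : E3 => A ^ 2)) := by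
    rw [integrable_indicator_iff hD]
    exact integrableOn_const hVfin.ne
  have hle : ∀ x, ‖curl v x‖ ^ 2 ≤ D.indicator (fun _ : E3 => A ^ 2) x := by
    intro x
    by_cases hx : x ∈ D
    · rw [indicator_of_mem hx]
      exact pow_le_pow_left₀ (norm_nonneg _) (hcA x) 2
    · rw [indicator_of_notMem hx, hcD x hx]
      simp
  have hsq : Integrable (fun x => ‖curl v x‖ ^ 2) := by
    refine hind.mono' (hwc.pow 2).aestronglyMeasurable ?_
    refine Eventually.of_forall fun x => ?_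
    rw [Real.norm_of_nonneg (by positivity)]
    exact hle x
  obtain ⟨L, hL⟩ : ∃ L, L = max A (∫ x, ‖curl v x‖ ^ 2) := ⟨_, rfl⟩
  have hBL : BL L (fun x => ‖curl v x‖) := by
    refine ⟨fun x => ?_, hsq, ?_⟩
    · rw [abs_of_nonneg (norm_nonneg _), hL]
      exact (hcA x).trans (le_max_left _ _)
    · rw [hL]
      exact le_max_right _ _
  have hbs := bs_pt hv hdiv hK hBL
  -- the kernel integral
  obtain ⟨G, hG⟩ : ∃ G : E3 → ENNReal, G = fun x => ∫⁻ y in D, ENNReal.ofReal (1 / ‖x - y‖ ^ 2) := ⟨_, rfl⟩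
  have hI : ∀ x, ENNReal.ofReal (∫ y, ‖curl v y‖ / ‖x - y‖ ^ 2) ≤ ENNReal.ofReal A * G x := by
    intro x
    have h1 : ENNReal.ofReal (∫ y, ‖curl v y‖ / ‖x - y‖ ^ 2) ≤ ∫⁻ y, ENNReal.ofReal (‖curl v y‖ / ‖x - y‖ ^ 2) := by
      by_cases hi : Integrable (fun y => ‖curl v y‖ / ‖x - y‖ ^ 2)
      · rw [ofReal_integral_eq_lintegral_ofReal hi (Eventually.of_forall fun y => by positivity)]
      · rw [integral_undef hi]
        simp
    refine h1.trans ?_
    have hm : Measurable (fun y : E3 => ENNReal.ofReal (1 / ‖x - y‖ ^ 2)) := by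
      refine ENNReal.measurable_ofReal.comp ?_
      exact measurable_const.div ((continuous_const.sub continuous_id).norm.measurable.pow_const 2)
    rw [hG, ← lintegral_const_mul _ hm, ← lintegral_indicator hD]
    refine lintegral_mono fun y => ?_
    by_cases hy : y ∈ D
    · rw [indicator_of_mem hy, ← ENNReal.ofReal_mul hA]
      refine ENNReal.ofReal_le_ofReal ?_
      rw [div_eq_mul_one_div]
      exact mul_le_mul_of_nonneg_right (hcA y) (by positivity)
    · rw [indicator_of_notMem hy, hcD y hy]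
      simp
  -- the pointwise bound
  have hpt : ∀ x, ENNReal.ofReal (‖v x‖ ^ 2) ≤ ENNReal.ofReal (12 / c0 ^ 2) * (ENNReal.ofReal A * G x) ^ 2 := by
    intro x
    obtain ⟨I, hId⟩ : ∃ I, I = ∫ y, ‖curl v y‖ / ‖x - y‖ ^ 2 := ⟨_, rfl⟩
    have hI0 : 0 ≤ I := by
      rw [hId]
      exact integral_nonneg fun y => by positivity
    have h1 : ‖v x‖ ^ 2 ≤ 12 / c0 ^ 2 * I ^ 2 := by
      rw [EuclideanSpace.norm_sq_eq]
      have h2 : ∀ j : Fin 3, ‖v x j‖ ^ 2 ≤ 4 / c0 ^ 2 * I ^ 2 := by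
        intro j
        have h3 := hbs j x
        rw [← hId] at h3
        have h4 : |v x j| ≤ 2 * I / c0 := by
          rw [le_div_iff₀ hc0]
          linarith
        rw [Real.norm_eq_abs]
        have h5 := pow_le_pow_left₀ (abs_nonneg _) h4 2
        refine h5.trans (le_of_eq ?_)
        field_simp
        ring
      have h6 := Finset.sum_le_sum fun j (_ : j ∈ Finset.univ) => h2 j
      refine h6.trans (le_of_eq ?_)
      rw [Finset.sum_const, Finset.card_univ, Fintype.card_fin]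
      simp only [nsmul_eq_mul]
      push_cast
      ring
    refine (ENNReal.ofReal_le_ofReal h1).trans ?_
    rw [ENNReal.ofReal_mul (by positivity), ENNReal.ofReal_pow hI0]
    refine mul_le_mul_right (pow_le_pow_left' ?_ 2) _
    rw [hId]
    exact hI x
  have hGm : ∫⁻ x : E3, G x ^ 2 ≤ ENNReal.ofReal C₁ * ENNReal.ofReal B * ENNReal.ofReal Vol := by
    rw [hG]
    exact enb_sq hC₁ hD hV hBD hcomp
  have hfin : ∫⁻ x, ENNReal.ofReal (‖v x‖ ^ 2) ≤ ENNReal.ofReal (12 / c0 ^ 2 * C₁ * A ^ 2 * B * Vol) := by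
    have h1 : ∫⁻ x, ENNReal.ofReal (‖v x‖ ^ 2)
        ≤ ∫⁻ x, ENNReal.ofReal (12 / c0 ^ 2) * (ENNReal.ofReal A) ^ 2 * G x ^ 2 := by
      refine lintegral_mono fun x => (hpt x).trans (le_of_eq ?_)
      rw [mul_pow, mul_assoc]
    refine h1.trans ?_
    rw [lintegral_const_mul' _ _ (ENNReal.mul_ne_top ENNReal.ofReal_ne_top (ENNReal.pow_ne_top ENNReal.ofReal_ne_top))]
    refine (mul_le_mul_right hGm _).trans (le_of_eq ?_)
    rw [← ENNReal.ofReal_pow hA, ← ENNReal.ofReal_mul hC₁.le, ← ENNReal.ofReal_mul (by positivity),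
      ← ENNReal.ofReal_mul (by positivity), ← ENNReal.ofReal_mul (by positivity)]
    congr 1
    ring
  have hvm : AEStronglyMeasurable (fun x => ‖v x‖ ^ 2) volume := (hv.continuous.norm.pow 2).aestronglyMeasurable
  rw [integral_eq_lintegral_of_nonneg_ae (Eventually.of_forall fun x => by positivity) hvm]
  exact ENNReal.toReal_le_of_le_ofReal (by positivity) hfin

end Pool.Agent.H87.NS
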