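/-
ROW LogD. The Newtonian potential of the torus. PROOF. `D = Dt R a`, `x ∈ D`, so `rad x ≥ R - a ≥ R/2`, `R ≥ 8 a`. `vol D ≤ 26 R a²` (Dt_vol). rot_ball (NG/RB.lean) with `f = indicator D 1` (invariant under `rot`:
`rad (rot θ x) = rad x`, `(rot θ x) 2 = x 2`), `a := R/2`: for `0 < ρ ≤ R/2`: `vol (D ∩ ball x ρ) ≤ ρ/(R/2) vol D ≤ 52 ρ a²`. Let `N` with `2^N a ≤ R/2 < 2^(N+1) a` (`exists_nat_pow_near`).
For every `y`: `1/‖x-y‖ ≤ 1_{ball x a}(y) a/‖x-y‖² + ∑_{k<N} (2^k a)⁻¹ 1_{ball x (2^(k+1) a)}(y) + (2^N a)⁻¹`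
(if `‖x-y‖ ≥ 2^N a` the last term; if `2^k a ≤ ‖x-y‖ < 2^(k+1) a`, `k < N`, the term `k`; if `‖x-y‖ < a` the first, `1/‖x-y‖ = ‖x-y‖/‖x-y‖² ≤ a/‖x-y‖²`). Integrate over `D`:
`≤ a (a I₁) + ∑_{k<N} (2^k a)⁻¹ 52 (2^(k+1) a) a² + (4/R) 26 R a² = I₁ a² + 104 N a² + 104 a²`, where `∫_{ball 0 a} 1/‖z‖² = a I₁`, `I₁ = ∫_{ball 0 1} 1/‖z‖²` (rad_int in NS/HInt.lean, scaling), and
`(2^N a)⁻¹ < 4/R`. `N log 2 ≤ log (R/(2a)) ≤ log (R/a)`, `N ≤ 2 log (R/a)`. `C = I₁ + 208 + 105`.
-/
import Pool.Agent.H87.NG.RB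
import Pool.Agent.H87.NS.HInt
import Pool.Agent.H87.NS.Vol

set_option autoImplicit false

open Set Filter Topology MeasureTheory
open scoped ContDiff

namespace Pool.Agent.H87.NS

open Pool.Agent.H16

/-- the truncated kernel -/
noncomputable def LogD_nr (a t : ℝ) : ℝ := if t < a then 1 / t else 0

theorem LogD_nr_nonneg {a t : ℝ} (ht : 0 ≤ t) : 0 ≤ LogD_nr a t := by
  unfold LogD_nr
  split_ifs
  · positivity
  · exact le_refl _

theorem LogD_nr_eq (a : ℝ) {y : ℝ} (hy : 0 < y) :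
    y ^ (Module.finrank ℝ E3 - 1) • LogD_nr a y = (Ioo (0:ℝ) a).indicator (fun y => y) y := by
  rw [hint_finrank]
  unfold LogD_nr
  by_cases h : y < a
  · rw [if_pos h, Set.indicator_of_mem (show y ∈ Ioo (0:ℝ) a from ⟨hy, h⟩), smul_eq_mul]
    show y ^ 2 * (1 / y) = y
    field_simp
  · rw [if_neg h, Set.indicator_of_notMem (show y ∉ Ioo (0:ℝ) a from fun hh => h hh.2), smul_zero]

theorem LogD_near {a : ℝ} (ha : 0 < a) :
    Integrable (fun y : E3 => LogD_nr a ‖y‖) ∧
      ∫ y : E3, LogD_nr a ‖y‖ = 3 * (volume.real (Metric.ball (0 : E3) 1) * (a ^ 2 / 2)) := by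
  have hnt : Nontrivial E3 := Module.nontrivial_of_finrank_pos (R := ℝ) (by rw [hint_finrank]; norm_num)
  constructor
  · refine (integrable_fun_norm_addHaar (E := E3) (F := ℝ) (volume : Measure E3)
      (f := LogD_nr a)).2 ?_
    have h1 : IntegrableOn (fun y : ℝ => y) (Ioo 0 a) :=
      (continuous_id.integrableOn_Icc (a := (0:ℝ)) (b := a)).mono_set Ioo_subset_Icc_self
    have h2 : Integrable ((Ioo (0:ℝ) a).indicator (fun y : ℝ => y)) :=
      (integrable_indicator_iff measurableSet_Ioo).2 h1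
    exact IntegrableOn.congr_fun (h2.integrableOn (s := Ioi 0))
      (fun y hy => (LogD_nr_eq a hy).symm) measurableSet_Ioi
  · have h0 := integral_fun_norm_addHaar (E := E3) (F := ℝ) (volume : Measure E3) (LogD_nr a)
    rw [h0, hint_finrank]
    have h1 : ∫ y in Ioi (0:ℝ), y ^ (3 - 1) • LogD_nr a y = a ^ 2 / 2 := by
      have h2 : ∫ y in Ioi (0:ℝ), y ^ (3 - 1) • LogD_nr a y =
          ∫ y in Ioi (0:ℝ), (Ioo (0:ℝ) a).indicator (fun y => y) y := by
        refine setIntegral_congr_fun measurableSet_Ioi fun y hy => ?_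
        have := LogD_nr_eq a (show 0 < y from hy)
        rw [hint_finrank] at this
        exact this
      have h3 : Ioi (0:ℝ) ∩ Ioo 0 a = Ioo 0 a := by
        ext y
        simp only [mem_inter_iff, mem_Ioi, mem_Ioo]
        tauto
      rw [h2, setIntegral_indicator measurableSet_Ioo, h3, ← integral_Ioc_eq_integral_Ioo,
        ← intervalIntegral.integral_of_le ha.le, integral_id]
      ring
    rw [h1, nsmul_eq_mul, smul_eq_mul]
    norm_num

theorem LogD_rad_meas : Continuous rad := by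
  unfold rad
  fun_prop

theorem LogD_rad_rot (θ : ℝ) (x : E3) : rad (rot θ x) = rad x := by
  unfold rad
  have h := Real.sin_sq_add_cos_sq θ
  congr 1
  simp only [rot_zero', rot_one']
  linear_combination (x 0 ^ 2 + x 1 ^ 2) * h

theorem LogD_ball {R a ρ : ℝ} (ha : 0 < a) (hR : 8 * a ≤ R) {x : E3} (hx : x ∈ Dt R a) (hρ : 0 < ρ)
    (hρR : ρ ≤ R / 2) :
    volume (Metric.ball x ρ ∩ Dt R a) ≤ ENNReal.ofReal (52 * ρ * a ^ 2) := by
  have hR0 : 0 < R := by linarith
  have hDm : MeasurableSet (Dt R a) := (Dt_closed R a).measurableSet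
  have hvol := Dt_vol ha (show a ≤ R by linarith)
  have hfin : volume (Dt R a) ≠ ⊤ := ne_top_of_le_ne_top ENNReal.ofReal_ne_top hvol
  have hvolr : volume.real (Dt R a) ≤ 26 * R * a ^ 2 := by
    rw [measureReal_def]
    exact ENNReal.toReal_le_of_le_ofReal (by positivity) hvol
  have hint : Integrable ((Dt R a).indicator fun _ : E3 => (1:ℝ)) :=
    (integrable_indicator_iff hDm).2 (integrableOn_const hfin)
  have hrot : ∀ θ x, (Dt R a).indicator (fun _ : E3 => (1:ℝ)) (rot θ x) =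
      (Dt R a).indicator (fun _ : E3 => (1:ℝ)) x := by
    intro θ y
    have h1 : rot θ y ∈ Dt R a ↔ y ∈ Dt R a := by
      unfold Dt
      rw [mem_setOf_eq, mem_setOf_eq, LogD_rad_rot, rot_two']
    by_cases hy : y ∈ Dt R a
    · rw [Set.indicator_of_mem hy, Set.indicator_of_mem (h1.2 hy)]
    · rw [Set.indicator_of_notMem hy, Set.indicator_of_notMem (fun hh => hy (h1.1 hh))]
  have hrad : R / 2 ≤ rad x := by
    have := (abs_le.1 hx.1).1
    linarith
  have h1 := rot_ball hint (fun x => Set.indicator_nonneg (fun _ _ => zero_le_one) x) hrot hρ hρR hrad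
  have h2 : ∫ y in Metric.ball x ρ, (Dt R a).indicator (fun _ : E3 => (1:ℝ)) y =
      volume.real (Metric.ball x ρ ∩ Dt R a) := by
    rw [setIntegral_indicator hDm, setIntegral_const, smul_eq_mul, mul_one]
  have h3 : ∫ y, (Dt R a).indicator (fun _ : E3 => (1:ℝ)) y = volume.real (Dt R a) := by
    rw [integral_indicator hDm, setIntegral_const, smul_eq_mul, mul_one]
  rw [h2, h3] at h1
  have hfin2 : volume (Metric.ball x ρ ∩ Dt R a) ≠ ⊤ := measure_ne_top_of_subset inter_subset_right hfin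
  rw [← ENNReal.ofReal_toReal hfin2]
  refine ENNReal.ofReal_le_ofReal ?_
  rw [measureReal_def] at h1
  calc (volume (Metric.ball x ρ ∩ Dt R a)).toReal ≤ ρ / (R / 2) * volume.real (Dt R a) := h1
    _ ≤ ρ / (R / 2) * (26 * R * a ^ 2) := mul_le_mul_of_nonneg_left hvolr (by positivity)
    _ = 52 * ρ * a ^ 2 := by
        field_simp
        ring

theorem LogD_pt {a : ℝ} (ha : 0 < a) (N : ℕ) (x y : E3) :
    ENNReal.ofReal (1 / ‖x - y‖) ≤ ENNReal.ofReal (LogD_nr a ‖x - y‖) +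
      (∑ k ∈ Finset.range N, (Metric.ball x (2 ^ (k + 1) * a)).indicator
        (fun _ => ENNReal.ofReal ((2 ^ k * a)⁻¹)) y + ENNReal.ofReal ((2 ^ N * a)⁻¹)) := by
  rcases lt_or_ge ‖x - y‖ a with h | h
  · refine le_trans (le_of_eq ?_) le_self_add
    unfold LogD_nr
    rw [if_pos h]
  · have hr0 : 0 < ‖x - y‖ := ha.trans_le h
    refine le_trans ?_ le_add_self
    rcases le_or_gt (2 ^ N * a) ‖x - y‖ with hN | hN
    · refine le_trans ?_ le_add_self
      refine ENNReal.ofReal_le_ofReal ?_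
      rw [one_div]
      exact inv_anti₀ (by positivity) hN
    · obtain ⟨k, hk1, hk2⟩ := exists_nat_pow_near (x := ‖x - y‖ / a) (y := (2:ℝ))
        (by rw [le_div_iff₀ ha, one_mul]; exact h) (by norm_num)
      rw [le_div_iff₀ ha] at hk1
      rw [div_lt_iff₀ ha] at hk2
      have hkN : k < N := by
        by_contra hcon
        have h1 : (2:ℝ) ^ N ≤ 2 ^ k := pow_le_pow_right₀ (by norm_num) (not_lt.1 hcon)
        have h2 : (2:ℝ) ^ N * a ≤ 2 ^ k * a := mul_le_mul_of_nonneg_right h1 ha.le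
        linarith
      refine le_trans ?_ le_self_add
      refine le_trans ?_ (Finset.single_le_sum (f := fun k =>
        (Metric.ball x (2 ^ (k + 1) * a)).indicator (fun _ => ENNReal.ofReal ((2 ^ k * a)⁻¹)) y)
        (fun _ _ => bot_le) (Finset.mem_range.2 hkN))
      have hmem : y ∈ Metric.ball x (2 ^ (k + 1) * a) := by
        rw [Metric.mem_ball, dist_comm, dist_eq_norm]
        exact hk2
      show ENNReal.ofReal (1 / ‖x - y‖) ≤
        (Metric.ball x (2 ^ (k + 1) * a)).indicator (fun _ => ENNReal.ofReal ((2 ^ k * a)⁻¹)) y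
      rw [Set.indicator_of_mem hmem]
      refine ENNReal.ofReal_le_ofReal ?_
      rw [one_div]
      exact inv_anti₀ (by positivity) hk1

theorem log_D : ∃ C : ℝ, 0 < C ∧ ∀ R a : ℝ, 0 < a → 8 * a ≤ R → ∀ x ∈ Dt R a,
    ∫⁻ y in Dt R a, ENNReal.ofReal (1 / ‖x - y‖) ≤ ENNReal.ofReal (C * a ^ 2 * (1 + Real.log (R / a))) := by
  obtain ⟨κ, hκ⟩ : ∃ κ : ℝ, κ = volume.real (Metric.ball (0 : E3) 1) := ⟨_, rfl⟩
  have hκ0 : 0 ≤ κ := by
    rw [hκ]
    exact measureReal_nonneg
  refine ⟨3 * κ / 2 + 208, by positivity, ?_⟩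
  intro R a ha hR x hx
  have hR0 : 0 < R := by linarith
  have hDm : MeasurableSet (Dt R a) := (Dt_closed R a).measurableSet
  have hvol := Dt_vol ha (show a ≤ R by linarith)
  obtain ⟨N, hN1, hN2⟩ := exists_nat_pow_near (x := R / (2 * a)) (y := (2:ℝ))
    (by rw [le_div_iff₀ (by positivity)]; linarith) (by norm_num)
  rw [le_div_iff₀ (by positivity)] at hN1
  rw [div_lt_iff₀ (by positivity)] at hN2
  have hNR : 2 ^ N * a ≤ R / 2 := by linarith
  have hNR2 : R / 4 < 2 ^ N * a := by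
    rw [pow_succ] at hN2
    linarith
  -- the integral of the pointwise bound
  have hball_m : ∀ k : ℕ, MeasurableSet (Metric.ball x (2 ^ (k + 1) * a)) := fun k =>
    Metric.isOpen_ball.measurableSet
  have hkm : ∀ k : ℕ, Measurable fun y : E3 => (Metric.ball x (2 ^ (k + 1) * a)).indicator
      (fun _ => ENNReal.ofReal (((2:ℝ) ^ k * a)⁻¹)) y := fun k => measurable_const.indicator (hball_m k)
  have hsm : Measurable fun y : E3 => ∑ k ∈ Finset.range N, (Metric.ball x (2 ^ (k + 1) * a)).indicator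
      (fun _ => ENNReal.ofReal (((2:ℝ) ^ k * a)⁻¹)) y := Finset.measurable_fun_sum _ fun k _ => hkm k
  have hm2 : Measurable fun y : E3 => (∑ k ∈ Finset.range N, (Metric.ball x (2 ^ (k + 1) * a)).indicator
      (fun _ => ENNReal.ofReal (((2:ℝ) ^ k * a)⁻¹)) y) + ENNReal.ofReal (((2:ℝ) ^ N * a)⁻¹) :=
    hsm.add measurable_const
  have hI : ∫⁻ y in Dt R a, ENNReal.ofReal (1 / ‖x - y‖) ≤
      (∫⁻ y in Dt R a, ENNReal.ofReal (LogD_nr a ‖x - y‖)) +
      ((∑ k ∈ Finset.range N, ENNReal.ofReal (((2:ℝ) ^ k * a)⁻¹) *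
        volume (Metric.ball x (2 ^ (k + 1) * a) ∩ Dt R a)) +
        ENNReal.ofReal (((2:ℝ) ^ N * a)⁻¹) * volume (Dt R a)) := by
    refine (lintegral_mono fun y => LogD_pt ha N x y).trans (le_of_eq ?_)
    rw [lintegral_add_right _ hm2, lintegral_add_right _ measurable_const,
      lintegral_finsetSum _ fun k _ => hkm k, lintegral_const, Measure.restrict_apply MeasurableSet.univ,
      Set.univ_inter]
    congr 2
    refine Finset.sum_congr rfl fun k _ => ?_
    rw [lintegral_indicator_const (hball_m k), Measure.restrict_apply (hball_m k)]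
  refine hI.trans ?_
  -- first term
  have h1 : ∫⁻ y in Dt R a, ENNReal.ofReal (LogD_nr a ‖x - y‖) ≤
      ENNReal.ofReal (3 * (κ * (a ^ 2 / 2))) := by
    obtain ⟨hi, he⟩ := LogD_near ha
    have hi2 : Integrable fun y : E3 => LogD_nr a ‖x - y‖ := hi.comp_sub_left x
    have he2 : ∫ y : E3, LogD_nr a ‖x - y‖ = 3 * (κ * (a ^ 2 / 2)) := by
      rw [hκ, ← he]
      exact integral_sub_left_eq_self (fun y : E3 => LogD_nr a ‖y‖) volume x
    rw [← he2, ofReal_integral_eq_lintegral_ofReal hi2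
      (Eventually.of_forall fun y => LogD_nr_nonneg (norm_nonneg _))]
    exact setLIntegral_le_lintegral _ _
  have h2 : ∑ k ∈ Finset.range N, ENNReal.ofReal (((2:ℝ) ^ k * a)⁻¹) *
        volume (Metric.ball x (2 ^ (k + 1) * a) ∩ Dt R a) ≤ ENNReal.ofReal (N * (104 * a ^ 2)) := by
    have h3 : ∀ k ∈ Finset.range N, ENNReal.ofReal (((2:ℝ) ^ k * a)⁻¹) *
        volume (Metric.ball x (2 ^ (k + 1) * a) ∩ Dt R a) ≤ ENNReal.ofReal (104 * a ^ 2) := by
      intro k hk
      have hkN : k + 1 ≤ N := Finset.mem_range.1 hk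
      have h4 : (2:ℝ) ^ (k + 1) * a ≤ R / 2 := by
        have : (2:ℝ) ^ (k + 1) ≤ 2 ^ N := pow_le_pow_right₀ (by norm_num) hkN
        exact (mul_le_mul_of_nonneg_right this ha.le).trans hNR
      have h5 := LogD_ball ha hR hx (ρ := (2:ℝ) ^ (k + 1) * a) (by positivity) h4
      refine (mul_le_mul_right h5 _).trans (le_of_eq ?_)
      rw [← ENNReal.ofReal_mul (by positivity)]
      congr 1
      rw [pow_succ]
      field_simp
      ring
    refine (Finset.sum_le_sum h3).trans (le_of_eq ?_)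
    rw [Finset.sum_const, Finset.card_range, nsmul_eq_mul, ENNReal.ofReal_mul (Nat.cast_nonneg _),
      ENNReal.ofReal_natCast]
  have h3 : ENNReal.ofReal (((2:ℝ) ^ N * a)⁻¹) * volume (Dt R a) ≤ ENNReal.ofReal (104 * a ^ 2) := by
    refine (mul_le_mul_right hvol _).trans ?_
    rw [← ENNReal.ofReal_mul (by positivity)]
    refine ENNReal.ofReal_le_ofReal ?_
    have h4 : ((2:ℝ) ^ N * a)⁻¹ ≤ (R / 4)⁻¹ := inv_anti₀ (by positivity) hNR2.le
    calc ((2:ℝ) ^ N * a)⁻¹ * (26 * R * a ^ 2) ≤ (R / 4)⁻¹ * (26 * R * a ^ 2) :=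
          mul_le_mul_of_nonneg_right h4 (by positivity)
      _ = 104 * a ^ 2 := by
          field_simp
          ring
  refine (add_le_add h1 (add_le_add h2 h3)).trans ?_
  rw [← ENNReal.ofReal_add (by positivity) (by positivity),
    ← ENNReal.ofReal_add (by positivity) (by positivity)]
  refine ENNReal.ofReal_le_ofReal ?_
  -- the number of scales
  have hlog : (N : ℝ) ≤ 2 * Real.log (R / a) := by
    have h4 : (2:ℝ) ^ N ≤ R / a := by
      rw [le_div_iff₀ ha]
      linarith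
    have h5 : (N : ℝ) * Real.log 2 ≤ Real.log (R / a) := by
      rw [← Real.log_pow]
      exact Real.log_le_log (by positivity) h4
    have h6 := Real.log_two_gt_d9
    have h7 : (N : ℝ) * (1 / 2) ≤ (N : ℝ) * Real.log 2 :=
      mul_le_mul_of_nonneg_left (by linarith) (Nat.cast_nonneg _)
    linarith
  have hlog0 : 0 ≤ Real.log (R / a) := by
    refine Real.log_nonneg ?_
    rw [le_div_iff₀ ha]
    linarith
  have ha2 : 0 ≤ a ^ 2 := sq_nonneg a
  have h8 : (N : ℝ) * (104 * a ^ 2) ≤ 2 * Real.log (R / a) * (104 * a ^ 2) :=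
    mul_le_mul_of_nonneg_right hlog (by positivity)
  have h9 : 0 ≤ κ * a ^ 2 * Real.log (R / a) := by positivity
  nlinarith

end Pool.Agent.H87.NS
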