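/-
ROW VRing. Thin vortex rings with swirl. PROOF. `K = max 1 (52 A)`; thmG K gives `δ, m`. `C_E` from en_bd, `C_L` from log_D. `X = R/a`, `S = 4 + 52 C_E C_L A² (1 + log X)`, `ℓ = R/2`, `A' = A/a²`.
Let `M ≥ 8` be such that for `X ≥ M`: `208 A^(3/2) X^(-1/2) ≤ δ S^(-m)` (as `X → ∞`, `X^(-1/2) (4 + c (1 + log X))^m → 0`; e.g. `log X ≤ (1/κ) X^κ` with `κ = 1/(4 (m+1))`, or
`isLittleO_log_rpow_atTop`). If `T ≤ 0` there is nothing to prove. Otherwise `v = u 0` is AxF (axF_of), its components satisfy `DB 1 K'` (uDB). Hypotheses of thmG: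
integrability and `∫ |sO v| ≤ 52 A' a² = 52 A ≤ K` (sw_int); support: if `‖x‖ ≥ S R/2 ≥ 2 R` then `x ∉ Dt R a` (`‖x‖² = rad² + x₂² ≤ (R+a)² + a² < 4 R²` on `Dt R a`), sw_off;
balls: for `y ∈ ball (axp z) (R/2)`: `rad y ≤ ‖y - axp z‖ < R/2 < R - a` so `y ∉ Dt R a`, the integral is `0 ≤ cG/2`; energy: en_bd with `D = Dt R a`, `B = C_L a² (1 + log X)`, `Vol = 26 R a²`:
`∫ ‖v‖² ≤ C_E (A/a²)² C_L a² (1 + log X) 26 R a² = 26 C_E C_L A² (1 + log X) R ≤ S R/2`; `∫ |sV v|^(3/2) ≤ (4 A/(a R))^(3/2) 26 R a² = 208 A^(3/2) X^(-1/2) ≤ δ S^(-m)`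
(`4^(3/2) = 8`). thmG: `|sV (u t) x| ≤ C`, so `|circ (u t) x| = rsq x |sV (u t) x| ≤ C rad x ^ 2` (circ_eq, rad_sq').
-/
import Pool.Agent.H87.NG.GT
import Pool.Agent.H87.NV.EnB
import Pool.Agent.H87.NV.LogD
import Pool.Agent.H87.NV.SwS

set_option autoImplicit false

open Set Filter Topology MeasureTheory
open scoped ContDiff

namespace Pool.Agent.H87.NS

open Pool.Agent.H16

theorem VRing_pow {A a X : ℝ} (hA : 0 < A) (ha : 0 < a) (hX : 0 < X) :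
    (4 * (A / a ^ 2) * a / (X * a)) ^ (3/2 : ℝ) * (26 * (X * a) * a ^ 2) =
      208 * A ^ (3/2 : ℝ) * X ^ (-(1/2) : ℝ) := by
  have e1 : 4 * (A / a ^ 2) * a / (X * a) = 4 * A / (a ^ 2 * X) := by
    field_simp
  have e2 : (4 : ℝ) ^ (3/2 : ℝ) = 8 := by
    rw [show (4 : ℝ) = 2 ^ (2 : ℝ) by norm_num, ← Real.rpow_mul (by norm_num)]
    norm_num
  have e3 : (a ^ 2) ^ (3/2 : ℝ) = a ^ 3 := by
    rw [← Real.rpow_natCast a 2, ← Real.rpow_mul ha.le, ← Real.rpow_natCast a 3]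
    norm_num
  have e4 : X ^ (3/2 : ℝ) = X * X ^ (1/2 : ℝ) := by
    rw [← Real.rpow_one_add' hX.le (by norm_num)]
    norm_num
  have e5 : X ^ (-(1/2) : ℝ) = (X ^ (1/2 : ℝ))⁻¹ := Real.rpow_neg hX.le _
  have h1 : 0 < X ^ (1/2 : ℝ) := Real.rpow_pos_of_pos hX _
  rw [e1, Real.div_rpow (by positivity) (by positivity), Real.mul_rpow (by norm_num) hA.le,
    Real.mul_rpow (by positivity) hX.le, e2, e3, e4, e5]
  field_simp
  ring

/-- the threshold -/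
theorem VRing_thr {A c δ m : ℝ} (hA : 0 < A) (hc : 0 ≤ c) (hδ : 0 < δ) (hm : 0 < m) :
    ∃ M : ℝ, 8 ≤ M ∧ ∀ X, M ≤ X →
      208 * A ^ (3/2 : ℝ) * X ^ (-(1/2) : ℝ) ≤ δ * (4 + c * (1 + Real.log X)) ^ (-m) := by
  have hκ : 0 < 1 / (4 * m) := by positivity
  have hAp : 0 < A ^ (3/2 : ℝ) := Real.rpow_pos_of_pos hA _
  have h1 : (fun X : ℝ => (4 + c) + c * Real.log X) =o[atTop] fun X => X ^ (1 / (4 * m)) := by
    refine Asymptotics.IsLittleO.add ?_ ((isLittleO_log_rpow_atTop hκ).const_mul_left c)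
    rw [Asymptotics.isLittleO_const_left]
    right
    exact tendsto_norm_atTop_atTop.comp (tendsto_rpow_atTop hκ)
  have h2 := h1.bound (c := 1) one_pos
  have h3 : Tendsto (fun X : ℝ => X ^ (-(1/4) : ℝ)) atTop (𝓝 0) :=
    tendsto_rpow_neg_atTop (by norm_num)
  have h4 : ∀ᶠ X : ℝ in atTop, X ^ (-(1/4) : ℝ) ≤ δ / (208 * A ^ (3/2 : ℝ)) :=
    h3.eventually_le_const (by positivity)
  obtain ⟨M₁, hM₁⟩ := eventually_atTop.1 (h2.and h4)
  refine ⟨max 8 M₁, le_max_left _ _, fun X hX => ?_⟩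
  obtain ⟨h5, h6⟩ := hM₁ X ((le_max_right _ _).trans hX)
  have hX8 : 8 ≤ X := (le_max_left _ _).trans hX
  have hX0 : 0 < X := by linarith
  have hlog : 0 ≤ Real.log X := Real.log_nonneg (by linarith)
  have hS : 0 < 4 + c * (1 + Real.log X) := by positivity
  have h7 : 4 + c * (1 + Real.log X) ≤ X ^ (1 / (4 * m)) := by
    rw [one_mul, Real.norm_of_nonneg (Real.rpow_nonneg hX0.le _)] at h5
    have := (le_abs_self _).trans h5
    linarith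
  have h8 : (4 + c * (1 + Real.log X)) ^ m ≤ X ^ (1/4 : ℝ) := by
    have := Real.rpow_le_rpow hS.le h7 hm.le
    rw [← Real.rpow_mul hX0.le] at this
    have e : 1 / (4 * m) * m = 1/4 := by field_simp
    rwa [e] at this
  have hSm : 0 < (4 + c * (1 + Real.log X)) ^ m := Real.rpow_pos_of_pos hS _
  rw [Real.rpow_neg hS.le, ← div_eq_mul_inv, le_div_iff₀ hSm]
  have e1 : X ^ (-(1/2) : ℝ) * X ^ (1/4 : ℝ) = X ^ (-(1/4) : ℝ) := by
    rw [← Real.rpow_add hX0]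
    norm_num
  have hXm : 0 < X ^ (-(1/2) : ℝ) := Real.rpow_pos_of_pos hX0 _
  calc 208 * A ^ (3/2 : ℝ) * X ^ (-(1/2) : ℝ) * (4 + c * (1 + Real.log X)) ^ m
      ≤ 208 * A ^ (3/2 : ℝ) * X ^ (-(1/2) : ℝ) * X ^ (1/4 : ℝ) :=
        mul_le_mul_of_nonneg_left h8 (by positivity)
    _ = 208 * A ^ (3/2 : ℝ) * X ^ (-(1/4) : ℝ) := by
        rw [mul_assoc, e1]
    _ ≤ 208 * A ^ (3/2 : ℝ) * (δ / (208 * A ^ (3/2 : ℝ))) :=
        mul_le_mul_of_nonneg_left h6 (by positivity)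
    _ = δ := by field_simp

theorem VRing_nsq (x : E3) : ‖x‖ ^ 2 = rad x ^ 2 + x 2 ^ 2 := by
  rw [rad_sq, EuclideanSpace.norm_sq_eq, Fin.sum_univ_three]
  simp

theorem VRing_far {R a : ℝ} (ha : 0 < a) (hR : 8 * a ≤ R) {x : E3} (hx : 2 * R ≤ ‖x‖) :
    x ∉ Dt R a := by
  rintro ⟨h1, h2⟩
  have h3 := abs_le.1 h1
  have h4 := abs_le.1 h2
  have h5 := VRing_nsq x
  have h6 := rad_nonneg x
  have h7 : rad x ^ 2 ≤ (R + a) ^ 2 := pow_le_pow_left₀ h6 (by linarith) 2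
  have h8 : x 2 ^ 2 ≤ a ^ 2 := by
    rw [← sq_abs (x 2)]
    exact pow_le_pow_left₀ (abs_nonneg _) h2 2
  have h9 : (2 * R) ^ 2 ≤ ‖x‖ ^ 2 := pow_le_pow_left₀ (by linarith) hx 2
  nlinarith

theorem VRing_ball {R a z : ℝ} (ha : 0 < a) (hR : 8 * a ≤ R) {y : E3}
    (hy : y ∈ Metric.ball (axp z) (R / 2)) : y ∉ Dt R a := by
  rintro ⟨h1, _⟩
  have h3 := abs_le.1 h1
  have h4 : rad y ≤ ‖y - axp z‖ := by
    have h5 := VRing_nsq (y - axp z)
    have h6 : rad (y - axp z) = rad y := by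
      simp [rad, axp]
    rw [h6] at h5
    refine le_of_sq_le_sq ?_ (norm_nonneg _)
    rw [h5]
    nlinarith [sq_nonneg ((y - axp z) 2)]
  rw [Metric.mem_ball, dist_eq_norm] at hy
  linarith

theorem vortex_ring (A : ℝ) (hA : 0 < A) : ∃ M : ℝ, 0 < M ∧ ∀ (a R T : ℝ) (u : ℝ → E3 → E3) (p : ℝ → E3 → ℝ),
    0 < a → M * a ≤ R → IsHInfAxisymNS T u p → (∀ x, x ∉ Dt R a → curl (u 0) x = 0) →
    (∀ x, ‖curl (u 0) x‖ ≤ A / a ^ 2) → ∃ C : ℝ, ∀ t ∈ Ico 0 T, ∀ x, |circ (u t) x| ≤ C * rad x ^ 2 := by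
  obtain ⟨δ, m, hδ, hm, hthm⟩ := thmG (max 1 (52 * A)) (le_max_left _ _)
  obtain ⟨CE, hCE, hen⟩ := en_bd
  obtain ⟨CL, hCL, hlog⟩ := log_D
  obtain ⟨c, hc⟩ : ∃ c, c = 52 * CE * CL * A ^ 2 := ⟨_, rfl⟩
  have hc0 : 0 ≤ c := by rw [hc]; positivity
  obtain ⟨M, hM8, hM⟩ := VRing_thr hA hc0 hδ hm
  refine ⟨M, by linarith, ?_⟩
  intro a R T u p ha hMR h hs hb
  by_cases hT : T ≤ 0
  · exact ⟨0, fun t ht => absurd (lt_of_le_of_lt ht.1 ht.2) (not_lt.2 hT)⟩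
  push Not at hT
  have h8R : 8 * a ≤ R := (mul_le_mul_of_nonneg_right hM8 ha.le).trans hMR
  have hR0 : 0 < R := by linarith
  obtain ⟨X, hX⟩ : ∃ X, X = R / a := ⟨_, rfl⟩
  have hXR : R = X * a := by rw [hX]; field_simp
  have hXM : M ≤ X := by rw [hX, le_div_iff₀ ha]; exact hMR
  have hX8 : 8 ≤ X := hM8.trans hXM
  have hX0 : 0 < X := by linarith
  have hlX : 0 ≤ Real.log X := Real.log_nonneg (by linarith)
  obtain ⟨S, hS⟩ : ∃ S, S = 4 + c * (1 + Real.log X) := ⟨_, rfl⟩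
  have hS4 : 4 ≤ S := by
    rw [hS]
    have : 0 ≤ c * (1 + Real.log X) := by positivity
    linarith
  have hv : AxF (u 0) := axF_of h.ns ⟨le_rfl, hT⟩
  obtain ⟨K', hK'⟩ := uDB h hT
  have hDB : ∀ j : Fin 3, DB 1 K' (fun x => u 0 x j) := fun j =>
    DB_mono (hK' 0 ⟨le_rfl, le_rfl⟩ j) (by norm_num) le_rfl
  have hA' : 0 ≤ A / a ^ 2 := by positivity
  obtain ⟨⟨hV1, hV2⟩, hO1, hO2⟩ := sw_int hv ha (by linarith) hs hb
  have hoff := sw_off hv ha (by linarith) hs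
  have hO3 : ∫ x, |sO (u 0) x| ≤ max 1 (52 * A) := by
    refine hO2.trans (le_trans (le_of_eq ?_) (le_max_right _ _))
    field_simp
  have hvol := Dt_vol (R := R) ha (by linarith)
  have hen' := hen (u 0) K' (A / a ^ 2) (CL * a ^ 2 * (1 + Real.log (R / a))) (26 * R * a ^ 2)
    (Dt R a) hv.smooth hv.div hDB (Dt_closed R a).measurableSet hA'
    (by rw [← hX]; positivity) (by positivity) hvol hb hs (hlog R a ha h8R)
  have hE : ∫ x, ‖u 0 x‖ ^ 2 ≤ S * (R / 2) := by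
    refine hen'.trans ?_
    rw [← hX]
    have e1 : CE * (A / a ^ 2) ^ 2 * (CL * a ^ 2 * (1 + Real.log X)) * (26 * R * a ^ 2) =
        c * (1 + Real.log X) * (R / 2) := by
      rw [hc]
      field_simp
      ring
    rw [e1]
    refine mul_le_mul_of_nonneg_right ?_ (by linarith)
    rw [hS]
    linarith
  have hV3 : ∫ x, |sV (u 0) x| ^ (3/2 : ℝ) ≤ δ * S ^ (-m) := by
    refine hV2.trans ?_
    rw [hXR, VRing_pow hA ha hX0, hS]
    exact hM X hXM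
  obtain ⟨C, hC⟩ := hthm S (R / 2) T u p (by linarith) (by linarith) h hO1 hO3
    (fun x hx => (hoff x (VRing_far ha h8R (by nlinarith))).2)
    (fun z => by
      have e : ∫ x in Metric.ball (axp z) (R / 2), |sO (u 0) x| = 0 := by
        refine setIntegral_eq_zero_of_forall_eq_zero fun x hx => ?_
        rw [(hoff x (VRing_ball ha h8R hx)).2, abs_zero]
      rw [e]
      have := cG_pos
      linarith) hE hV1 hV3
  refine ⟨C, fun t ht x => ?_⟩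
  rw [circ_eq (axF_of h.ns ht) x, abs_mul, ← rad_sq', abs_of_nonneg (sq_nonneg _), mul_comm]
  exact mul_le_mul_of_nonneg_right (hC t ht x) (sq_nonneg _)

end Pool.Agent.H87.NS
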